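import Pool.Agent.Lib.MP_391708_nt.QPA.C.AllJ

/-!
# The parity and the large prime factors of `n² + a` for almost all shifts `a`
-/

set_option autoImplicit false

namespace Pool.Agent.Lib.MP391708.Old.JointLaw

/-- The number of prime factors `p > N ^ x` of `m`, with multiplicity. -/
noncomputable def large (N : ℕ) (x : ℝ) (m : ℕ) : ℕ :=
  (m.primeFactorsList.filter (fun p : ℕ => decide ((N : ℝ) ^ x < (p : ℝ)))).length

open scoped Classical in
/-- The number of `1 ≤ n ≤ M` with `λ(|n² + a|) = s` for which the numbers `large N (x j) |n² + a|`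
form a member of `E`. -/
noncomputable def count (N M : ℕ) (a : ℤ) {r : ℕ} (x : Fin r → ℝ) (E : Set (Fin r → ℕ))
    (s : ℤ) : ℕ :=
  ((Finset.Icc 1 M).filter (fun n : ℕ =>
    (fun j => large N (x j) ((n : ℤ) ^ 2 + a).natAbs) ∈ E ∧
      ArithmeticFunction.liouville ((n : ℤ) ^ 2 + a).natAbs = s)).card

open scoped Classical in
/-- The number of `1 ≤ m ≤ M²` for which the numbers `large N (x j) m` form a member of `E`. -/
noncomputable def model (N M : ℕ) {r : ℕ} (x : Fin r → ℝ) (E : Set (Fin r → ℕ)) : ℕ :=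
  ((Finset.Icc 1 (M ^ 2)).filter (fun m : ℕ => (fun j => large N (x j) m) ∈ E)).card

open scoped Classical in
/-- The number of the integers `a`, `|a| ≤ A`, without the property `P`. -/
noncomputable def exceptions (A : ℕ) (P : ℤ → Prop) : ℕ :=
  ((Finset.Icc (-(A : ℤ)) A).filter (fun a => ¬ P a)).card

/-- Let `θ > 5/6`, `δ, ε > 0` and `r ≥ 0`. For all large `N` and all `A` with `N ^ θ ≤ A ≤ N`, all but
at most `ε A` of the integers `a`, `|a| ≤ A`, satisfy: for all `M ≤ N`, all real `x_1, …, x_r ≥ δ`,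
all sets `E` of `r`-tuples and `s = 1, -1`, the number of the `n ≤ M` with `λ(|n² + a|) = s` for
which the vector of the numbers of prime factors `> N ^ x_j` of `|n² + a|` is in `E`, differs by at
most `ε N` from `1 / (2 M)` times the number of the `m ≤ M²` for which the vector of the numbers of
prime factors `> N ^ x_j` of `m` is in `E`. -/
theorem result (θ δ ε : ℝ) (r : ℕ) (hθ : 5 / 6 < θ) (hδ : 0 < δ) (hε : 0 < ε) :
    ∃ N₀ : ℕ, ∀ N A : ℕ, N₀ ≤ N → (N : ℝ) ^ θ ≤ A → A ≤ N →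
      (exceptions A (fun a => ∀ M : ℕ, M ≤ N → ∀ x : Fin r → ℝ, (∀ j, δ ≤ x j) →
        ∀ (E : Set (Fin r → ℕ)) (s : ℤ), s = 1 ∨ s = -1 →
          |(count N M a x E s : ℝ) - (model N M x E : ℝ) / (2 * M)| ≤ ε * N) : ℝ) ≤ ε * A := by
  obtain ⟨N₀, h⟩ := Pool.Agent.Lib.MP391708.QPA.C.allUNIM θ δ ε r hθ hδ hε
  exact ⟨N₀, fun N A h1 h2 h3 => le_trans (Nat.cast_le.2
    (Pool.Agent.Lib.MP391708.QPA.C.card_mono _ (fun a _ ha => ha))) (h N A h1 h2 h3)⟩

end Pool.Agent.Lib.MP391708.Old.JointLaw
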